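import Pool.Agent.Run7.h621.LA.LogFin

/-!
MP_6f117a_ag, Q1: a class of projective varieties, some hyperbolic and some not, for which the
properties (1) to (4) are all equivalent to the absence of lines.

Let `K` be an algebraically closed field of characteristic `0`, such as the complex numbers, and let
`k` be a field contained in `K`, such as the rational numbers, with algebraic closure `k'` in `K`.
Let `V` be a closed subset of projective space of dimension `n`, defined over `k'`, of dimension at
most `m`; for example the whole space, with `m = n`. For `a` in a finite set `A` let `H_a` be a form
of degree `d_a` over `K`, not `0`. The forms are supposed to satisfy at most `s` independent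
algebraic conditions over `k`: the ratios of the coefficients of the `H_a` generate a field of
transcendence degree at least `N - s` over `k`, where `N` is the sum of the `binom (d_a + n) n - 1`,
the dimension of the space of parameters. The conditions can be of any kind, and nothing is supposed
on the singularities. Let `X` be the complete intersection of `V` and all the `H_a = 0`.

Let `q` be `0`, or such that `|A| + 2 q ≤ s`, `|A| + 4 q ≤ s + 3` and `s ≤ N`, and suppose that
`2 m + s + 1 ≤ ∑ (d_a + 1) + q`, so that `c = ∑ (d_a + 1) + q - 2 m - s` is positive. Then the
following are equivalent:

(a) `X` contains no line (over `K`);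

(b) every closed subvariety of `X` of positive dimension is of general type;

(c) for every nonconstant map from a smooth projective curve of genus `g` to `X`, the degree times
`c` is at most `2 g - 2`;

(d) every morphism from the multiplicative group to `X` is constant.

Moreover, `X` contains at most one line, and if it contains one, then `∑ (d_a + 1) + 2 ≤ s + 2 n`.

Here (b) is the property (4) of the problem; (c) implies (1), and (1) excludes lines; by the known
implications (1), (2), (4) imply (3), and (3) implies (d). So the properties (1) to (4) are
equivalent for `X`. By the last part, all of them hold if `s` is at most `∑ (d_a + 1) - 2 n + 1`.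
This is sharp: complete intersections with a line are given by `∑ (d_a + 1) - 2 n + 2` conditions.
For larger `s`, some members of the class have the properties and others do not.

For example, for a hypersurface of degree `d` in projective space the conditions are
`2 n + s ≤ d + q` and `q = 0`, or `1 + 2 q ≤ s` and `1 + 4 q ≤ s + 3`; so `s` can be about
`4 (d - 2 n) / 3`, while hypersurfaces with lines occur if `s` is at least `d - 2 n + 3`. With
`q = 2`: for `d ≥ 2 n + 4` the hypersurfaces of degree `d` that are not algebraically hyperbolic, or
that have a closed subvariety of positive dimension not of general type, satisfy at least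
`d - 2 n + 3` independent conditions over `k`.

A closed subvariety of `X` of dimension `w` is given by its function field `L`, and its generic point
`x`, with homogeneous coordinates in `L`. In (c), `L` is the function field of the curve, `pht K x`
is the degree and `canDeg K L` is `2 g - 2`. The morphisms from the multiplicative group to
projective space are given by polynomials without common zeros outside of `0`.
-/

set_option autoImplicit false

namespace Pool.Agent.Results.MP_6f117a_ag.EquivalenceByLines

open MvPolynomial Pool.Agent.TH145.MG Pool.Agent.Run7.h621.LG Pool.Agent.Run7.h621.LA

theorem result {k K : Type} [Field k] [Field K] [IsAlgClosed K] [CharZero K] [Algebra k K]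
    {n m s q : ℕ}
    -- a closed subset of projective space, of dimension at most `m`
    (V : Set (MvPolynomial (Fin (n + 1)) (algebraicClosure k K)))
    (hVh : ∀ f ∈ V, ∃ e, f.IsHomogeneous e) (hV : DimLE (algebraicClosure k K) V m)
    -- forms of degrees `d a` that satisfy at most `s` independent conditions over `k`
    {A : Type} [Fintype A] (d : A → ℕ) (H : A → MvPolynomial (Fin (n + 1)) K)
    (h : ConditionsLE k H d s) (hq : Small n d s q)
    (hnum : 2 * m + s + 1 ≤ ∑ a, (d a + 1) + q) {c : ℤ}
    (hc : c = (∑ a, ((d a : ℤ) + 1)) + q - 2 * m - s) :
    (NoLine (peqs V H) ↔ AllGeneral (peqs V H)) ∧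
      (NoLine (peqs V H) ↔ CurvesBounded (peqs V H) c) ∧
      (NoLine (peqs V H) ↔ NoGroup (peqs V H)) ∧
      (∀ p r : Fin (n + 1) → K, LineIn (peqs V H) p r → ∑ a, (d a + 1) + 2 ≤ s + 2 * n) ∧
      ∀ p r p2 r2 : Fin (n + 1) → K, LineIn (peqs V H) p r → LineIn (peqs V H) p2 r2 →
        Submodule.span K (Set.range ![p2, r2]) = Submodule.span K (Set.range ![p, r]) := by
  obtain ⟨h1, h2, h3, h4⟩ := equivalence_proj hVh hV h hq hnum hc
  refine ⟨h1, h2, h3, h4, fun p r p2 r2 hl hl2 => ?_⟩
  rw [← eqs_univ] at hl hl2
  refine one_bad_line hV h hq Finset.univ ?_ hl ⟨0, 0, fun b hb => absurd (Finset.mem_univ b) hb⟩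
    (fun b hb => absurd (Finset.mem_univ b) hb) hl2
    ⟨0, 0, fun b hb => absurd (Finset.mem_univ b) hb⟩
    (fun b hb => absurd (Finset.mem_univ b) hb)
  rwa [Finset.sum_add_distrib, Finset.sum_const, smul_eq_mul, mul_one] at hnum

end Pool.Agent.Results.MP_6f117a_ag.EquivalenceByLines
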