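import Pool.Agent.Run7.h177.PG.Gen
import Pool.Agent.Run7.h418.Tor2

/-!
# Notions of hyperbolicity for projective varieties whose symmetric differentials generate a symmetric
# power of the cotangent sheaf

`X = {F = 0}` is a complex projective variety (or scheme), of any dimension, possibly singular, such
that finitely many regular symmetric differentials `s j` of one degree `m > 0` generate `Sᵐ Ω` on `X`
(`SymForm`, `Generates`, `Pool/Agent/Run7/h418`). For example `X` is smooth and `Sᵐ Ω` is generated by
global sections.

* (1) `AlgHyp`: `X` is algebraically hyperbolic: for some `A` the degree of all morphisms from smooth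
  projective curves of genus `g` to `X` is at most `A * max (2 * g - 2) 0`;
* (3) `TorusRigid`: all holomorphic maps from complex tori to `X` are constant. As `X` contains no rational
  curves, and a nonconstant map from a torus to a projective variety gives one from an abelian variety,
  this is the condition that `X` is groupless (remarks which are not part of the Lean);
* (4) `AllSubGeneral`: all closed subvarieties of `X` of positive dimension are of general type;
* `BrodyHyperbolic`: every holomorphic map from the complex plane to `X` is constant;
* `FinitePointed`: for all smooth projective curves `C` (with function field `L`), points `c` of `C` and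
  `x` of `X` there are only finitely many morphisms `C → X` which map `c` to `x`.

Theorem. (3), (4) and `BrodyHyperbolic` are equivalent, and each of (1) and `FinitePointed` implies them.

With the known implications (4) ⇒ (2) ⇒ (3) (listed with the problem; not in the Lean) the conditions (2),
(3), (4) are equivalent for the smooth `X` of this class, and (1) implies them.

The proof. By the theorems of helper418 (`Pool/Agent/Run7/h418`) a subvariety of `X` which is not of
general type is covered by immersed complex tori. Near a fixed point the multiplication by `2` of such a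
torus is given by rational functions on an algebraic variety (project TA, `Pool/Agent/Run7/h177/TA`,
with helpers 160, 588, 711, 811, 824, 862, 939, 973); restricted to a curve in this variety through the
fixed point the iterates give infinitely many morphisms from this curve, with the same value at the
fixed point (`Pool/Agent/Run7/h177/PG`). Algebraically hyperbolic varieties have only finitely many
such morphisms (starting library `Pool/Agent/Y216/Point.lean`).
-/

set_option autoImplicit false

open Pool.Agent.W602.GT Pool.Agent.N155 Run7.h418 Pool.Agent.TH182.TC Run7.h177.PG FF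
open Pool.Agent.Y216 (pointed_of_bound)
open Pool.Agent.W603.LV (canDeg)
open Pool.Agent.W603.PV (pht)

namespace Pool.Agent.Results.MP_6f117a_ag.GeneratedDifferentials

variable {n : ℕ} {ι : Type}

/-- `X = {F = 0}` is algebraically hyperbolic: the degree of the morphisms from curves of genus `g` (with
function field `L`) to `X` is at most `A * max (2 * g - 2) 0`. -/
def AlgHyp (F : ι → MvPolynomial (Fin (n + 1)) ℂ) : Prop :=
  ∃ A : ℕ, ∀ (L : Type) [Field L] [Algebra ℂ L] [IsFF ℂ L] (f : Fin (n + 1) → L), f ≠ 0 →
    (∀ i, MvPolynomial.aeval f (F i) = 0) → pht ℂ f ≤ A * max (canDeg ℂ L) 0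

/-- For all pointed curves `(C, c)` and all points `x` of `X = {F = 0}` there are only finitely many
morphisms from `C` to `X` which map `c` to `x`. -/
def FinitePointed (F : ι → MvPolynomial (Fin (n + 1)) ℂ) : Prop :=
  ∀ (L : Type) [Field L] [Algebra ℂ L] [IsFF ℂ L] (c : Place ℂ L), ∀ x ∈ Cone F,
    (Maps F c x).Finite

theorem form_one : IsForm (1 : MvPolynomial (Fin (n + 1)) ℂ) := ⟨0, MvPolynomial.isHomogeneous_one _ _⟩

theorem val_one_ne {K : Type} [Field K] [Algebra ℂ K] (y : Fin (n + 1) → K) :
    val y (1 : MvPolynomial (Fin (n + 1)) ℂ) ≠ 0 := by
  unfold Pool.Agent.W602.GT.val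
  rw [map_one]
  exact one_ne_zero

/-- **Notions of hyperbolicity for varieties with a generated symmetric power of the cotangent sheaf.** -/
theorem result {m : ℕ} {τ : Type} [Fintype τ] {F : ι → MvPolynomial (Fin (n + 1)) ℂ}
    (hF : ∀ i, IsForm (F i)) (hm : 0 < m)
    {s : τ → (Fin (n + 1) → ℂ) → (Fin (n + 1) → ℂ) → ℂ} (hs : ∀ j, SymForm F m (s j))
    (hgen : Generates F m s) :
    [TorusRigid F, AllSubGeneral F, BrodyHyperbolic F].TFAE ∧
      (AlgHyp F → AllSubGeneral F) ∧ (FinitePointed F → AllSubGeneral F) := by
  have hP : FinitePointed F → AllSubGeneral F := fun h K _ _ w y hw hy =>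
    general_off hF (Q := fun _ : Unit => 1) (fun _ => form_one)
      (fun L _ _ _ c x hx _ => h L c x hx) hm hs hgen hw hy ⟨(), val_one_ne y⟩
  have hB := R.brody_iff hF hm hs hgen
  refine ⟨?_, fun h K _ _ w y hw hy => ?_, hP⟩
  · tfae_have 2 ↔ 3 := hB.symm
    tfae_have 3 ↔ 1 := by
      have him := R.immersive_of_generates hm hs hgen
      refine ⟨rigid_of_brody, fun h => ?_⟩
      by_contra hB'
      exact not_rigid_of_torus (torus_of_not_brody hF (fun _ => hm) hs him hB') h
    tfae_finish
  · obtain ⟨A, hA⟩ := h
    refine general_of_pointed hF hm hs hgen hw hy (pointed_of_bound ⟨1, form_one, val_one_ne y, A,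
      fun L _ _ _ f hf _ => hA L f ?_ fun i => hf.2 (F i) (hF i) (hy.mem i)⟩)
    obtain ⟨j, hj⟩ := hf.1
    exact fun h0 => hj (by rw [h0]; rfl)

end Pool.Agent.Results.MP_6f117a_ag.GeneratedDifferentials
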