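import Pool.Agent.Run7.h621.MP.Surf

/-!
MP_6f117a_ag, Q1: generic and nearly generic complete intersections in closed subsets of products of
projective spaces, among them the resolutions of generic determinantal varieties, are algebraically
hyperbolic, and all their closed subvarieties are of general type: they have all four properties.

Let `K` be an algebraically closed field of characteristic `0`, such as the complex numbers, and let
`k` be a field contained in `K`, such as the rational numbers, with algebraic closure `k'` in `K`.
Let `V` be a closed subset of a product of projective spaces of dimensions `n_i`, defined over `k'`,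
of dimension at most `m`, whose projection to the factor `i` has dimension at most `m_i`. For `a` in
a finite set `A`, let `F_a` be a member of a linear system over `k'` of forms of degrees `d_{a,i}` in
the coordinates `x_{i,0}, x_{i,1}, ...` of the factor `i`, spanned by the forms `P_{a,j}`, with the
coefficients `t_{a,j}`, and let `N` be the number of the ratios of the `t_{a,j}` to one of them, for
all `a` together: the dimension of the space of parameters. The ratios are supposed to generate a
field of transcendence degree at least `N - s` over `k`. For `s = 0`, this says that they are
algebraically independent: the `F_a` are generic. In general it says that the point of the space of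
parameters is not in any closed subset over `k` of codimension more than `s`; the complete
intersections can be special, and singular.

Let `X` be the complete intersection `F_a = 0`, `a` in `A`, in `V`. We consider curves and
subvarieties such that, for some `c` in a set `Z` of choices of an index `c_i` for each factor, no
`x_{i,c_i}` is `0` on them; each of the linear systems is supposed to contain all products of the
monomials `x_{i,c_i} ^ (d_{a,i} - e_i) x_{i,j_i} ^ e_i` over the `i`, for `c` in `Z`. If the linear
systems are complete, `Z` can be the set of all choices, and this is no restriction.

(1) For all nonconstant maps `f` from a smooth projective curve of genus `g` to `X`,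

  `∑_i (∑_a (d_{a,i} + 1) - m - m_i - s) deg_i f ≤ 2 g - 2`,

where `deg_i f` is the degree of the pullback of `O(1)` from the factor `i`.

(2) A closed subvariety of `X` of dimension `w > 0` is of general type if
`m + m_i + s + 2 ≤ ∑_a (d_{a,i} + 1) + w` for all `i` such that its projection to the factor `i` is
not constant.

So if `m + m_i + s + 1 ≤ ∑_a (d_{a,i} + 1)` for all `i` (and the linear systems are complete), then
`deg f ≤ 2 g - 2` for all `f` as in (1), where `deg` is the sum of the `deg_i`, and all closed
subvarieties of positive dimension are of general type: `X` is algebraically hyperbolic and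
hyperbolic, and hence bounded and groupless. The equivalence of the four properties holds for `X`.

Examples for generic forms (`s = 0`).
* If `V` is the product of the projective spaces, `m` is the sum of the `n_i`, and `m_i = n_i`: this is
  (3). The condition is `n_i + ∑_l n_l + 1 ≤ ∑_a (d_{a,i} + 1)` for all `i`.
* Let `M` be a matrix with `p` rows and `r + 1` columns of forms in `n + 1` variables, generic forms
  of degree `δ_a` in the row `a`. The points `(x, y)` with `M(x) y = 0` are the complete intersection
  of `p` forms of degrees `δ_a`, `1` in the product of projective spaces of dimensions `n` and `r`;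
  where the rank of `M(x)` is `r`, its projection to the determinantal variety where the rank is at
  most `r` is an isomorphism. The condition is `2 n + r + 1 ≤ ∑_a δ_a + p` and `n + 2 r + 1 ≤ 2 p`.

The curve is given by its function field `L`, and the map by multihomogeneous coordinates `x` in `L`;
`canDeg K L` is `2 g - 2`, and `pht K y` is the degree of the map to projective space with the
coordinates `y`. In (2), the subvariety is given by its function field `L`, or a finite extension of
it, and its generic point `x`.
-/

set_option autoImplicit false

namespace Pool.Agent.Results.MP_6f117a_ag.MultiprojectiveIntersections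

open MvPolynomial FF Pool.Agent.W603.LV Pool.Agent.W603.PV Pool.Agent.W602.GT
  Pool.Agent.Run7.h621.MP.Stm

theorem result {k K : Type} [Field k] [Field K] [IsAlgClosed K] [CharZero K] [Algebra k K]
    {ι : Type} [Fintype ι] [DecidableEq ι] {n : ι → ℕ} {m s : ℕ} {mi : ι → ℕ}
    -- a closed subset of a product of projective spaces, of dimension at most `m`, whose
    -- projection to the factor `i` has dimension at most `mi i`
    (V : Set (MvPolynomial (Coords n) (algebraicClosure k K))) (hV : SetDim V m mi)
    -- linear systems of forms of degrees `d a i`, which contain the products of the monomials in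
    -- `x_{i, c i}` and another coordinate of the factor `i`, for `c ∈ Z`
    {A : Type} [Fintype A] (d : A → ι → ℕ) {J : A → Type} [∀ a, Fintype (J a)]
    (P : ∀ a, J a → MvPolynomial (Coords n) (algebraicClosure k K))
    (hP : ∀ a j, IsForm (P a j) (d a)) (Z : Set (∀ i, Fin (n i + 1)))
    (hZ : ∀ c ∈ Z, ∀ a, HasMonomials (P a) (d a) c)
    -- the coefficients; their ratios generate a field of transcendence degree at least their
    -- number minus `s`
    (t : ∀ a, J a → K) (j0 : ∀ a, J a) (hgen : CodimLE k t j0 s)
    -- the forms; the equations are `F a = 0`
    (F : A → MvPolynomial (Coords n) K)
    (hF : ∀ a, F a =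
      ∑ j, MvPolynomial.C (t a j) * map (algebraMap (algebraicClosure k K) K) (P a j)) :
    -- (1) the degrees of curves
    (∀ (L : Type) [Field L] [Algebra K L] [IsFF K L] (x : Coords n → L),
      (∃ c ∈ Z, ∀ i, x ⟨i, c i⟩ ≠ 0) → OnPair V F Finset.univ x →
      (∃ (i : ι) (j l : Fin (n i + 1)), Transcendental K (x ⟨i, j⟩ / x ⟨i, l⟩)) →
      ∑ i, ((∑ a, ((d a i : ℤ) + 1)) - m - mi i - s) * pht K (fun j => x ⟨i, j⟩) ≤
        canDeg K L) ∧
    -- (2) closed subvarieties of dimension `w > 0`
    (∀ (L : Type) [Field L] [Algebra K L] (w : ℕ) (x : Coords n → L), 0 < w →
      Algebra.trdeg K L = w → (∃ c ∈ Z, ∀ i, x ⟨i, c i⟩ ≠ 0) →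
      Algebra.IsAlgebraic (pointField K x) L → OnPair V F Finset.univ x →
      (∀ i, ConstAt K x i ∨ m + mi i + s + 2 ≤ ∑ a, (d a i + 1) + w) → GeneralType K L w) ∧
    -- (3) products of projective spaces
    SetDim (∅ : Set (MvPolynomial (Coords n) (algebraicClosure k K))) (∑ i, n i) n :=
  ⟨fun _ _ _ _ _ hx0 hx hnc => proj_degrees hV hP hZ hgen hF hx0 hx hnc,
    fun _ _ _ _ _ hw htr hx0 hxL hx hnum =>
      proj_subvarieties hV hP hZ hgen hF hw htr hx0 hxL hx hnum, setDim_top _ n⟩

end Pool.Agent.Results.MP_6f117a_ag.MultiprojectiveIntersections
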