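import Pool.Agent.Run7.h789.RC.Nst
import Pool.Agent.NH29.GN.Fin3

/-!
MP_6f117a_ag, Q1: all four notions of hyperbolicity hold for ALL projective varieties, smooth or not,
with a finite morphism to an ARBITRARY projective variety `V` of dimension `n` which is highly
ramified over at least `n + 2` ZARISKI-GENERAL hypersurface sections of `V`, over any algebraically
closed field of characteristic zero. The necessary order `m` of the ramification and the constant `A`
of algebraic hyperbolicity depend only on `V` and on the degrees of the hypersurfaces.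

Let `k₀` be a field of characteristic `0`, for instance `ℚ` or its algebraic closure, and let `V` be
a closed subset of the projective space of dimension `M` over `k₀`, of dimension at most `n`; it may
be singular or reducible. Let `q ≥ n + 2`, and let `d_b ≥ 1`, `b < q`, be degrees such that at most
`2 (q - n) - 2` of them are `1`, or `n + m (n - m) ≤ m ∑ d_b` for `1 ≤ m ≤ n` and the sums over
`q - m - 1` of the `b`. For instance, `q ≥ n + 2` and at most two of the degrees are `1`; or
`q ≥ 2 n + 1`, with any degrees.

THEOREM. There are a nonzero polynomial `Φ`, with coefficients in `k₀`, in the coefficients of `q`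
forms of degrees `d_b`, and numbers `A`, `m` with the following property. Let `K` be an algebraically
closed field which contains `k₀`, let `F_b` be forms of degrees `d_b` over `K` with `Φ (F) ≠ 0`, and
let `X` be a closed subset of `P^N × P^M` over `K` (`N` is arbitrary) which lies over `V` and is
ramified to order at least `m` over the hypersurfaces `F_b = 0`: all curves in `X` meet the preimages
of these hypersurfaces, as long as they are not contained in them, with multiplicities at least `m`
only. (If `X` is smooth, or only locally factorial, this means that all the components of the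
preimages, as divisors, have multiplicity at least `m`.)
(1) For all smooth projective curves `C` of genus `g` and all morphisms `f` from `C` to `X`, the
    degree of the composition of `f` with the projection to `V` is at most `A max (2 g - 2, 0)`.
(2) All closed subvarieties of `X` of positive dimension which are generically finite over their
    images in `V`, and all varieties with generically finite maps to them, are of general type.
(3) Suppose that `X` is finite over `V`. Then `X` is algebraically hyperbolic: the degree of `f` with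
    respect to `O (1, 1)` is at most `A' max (2 g - 2, 0)`, with a constant `A'` which depends on `X`;
    and `X` is hyperbolic: all closed subvarieties of `X` of positive dimension are of general type.
By the known implications, the `X` in (3) are also bounded and groupless: the four properties are
equivalent for them, since all hold. By (1) this is true over all algebraically closed extension
fields, with the same `A`. With respect to the ample line bundle `O (1)` of `V`, pulled back to `X`,
the constant does not depend on `X`, on the covering, or on the hypersurfaces.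

`GeneralType` (`Pool/Agent/W602/GT/Defs.lean`) is used: pluricanonical forms on the models of a
function field. `canDeg K L` is the degree `2 g - 2` of the canonical divisors of the function field
`L` of one variable over `K`, `Place K L` is the set of its places (for any `L`: of its discrete
valuations, trivial on `K`).
-/

set_option autoImplicit false

namespace Pool.Agent.Results.MP_6f117a_ag.RamifiedOverGeneral

open MvPolynomial FF
open Pool.Agent.W603.LV (canDeg)
open Pool.Agent.W602.GT (GeneralType)

/-- The closed subset of the projective space of dimension `M` given by the forms in `V` has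
dimension at most `n`: there are `n + 1` linear forms without common zero on it. -/
def DimLE {k : Type} [Field k] {M : ℕ} (V : Set (MvPolynomial (Fin (M + 1)) k)) (n : ℕ) : Prop :=
  ∃ ℓ : Fin (n + 1) → MvPolynomial (Fin (M + 1)) k, (∀ j, (ℓ j).IsHomogeneous 1) ∧
    ∀ y : Fin (M + 1) → AlgebraicClosure k,
      (∀ H ∈ V, aeval y H = 0) → (∀ j, aeval y (ℓ j) = 0) → y = 0

/-- The numerical condition on the degrees. -/
def Numeric (n : ℕ) {q : ℕ} (d : Fin q → ℕ) : Prop :=
  n + 2 ≤ q ∧ (∀ b, 1 ≤ d b) ∧ (((Finset.univ.filter fun b => d b = 1).card + 2 ≤ 2 * (q - n)) ∨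
    ∀ m, 1 ≤ m → m ≤ n → ∀ B : Finset (Fin q), B.card + m + 1 = q →
      n + m * (n - m) ≤ m * ∑ b ∈ B, d b)

/-- The indices of the coefficients of `q` forms of degrees `d i` in `M + 1` variables. -/
abbrev Index (M : ℕ) {q : ℕ} (d : Fin q → ℕ) : Type :=
  (i : Fin q) × {β : Fin (M + 1) →₀ ℕ // β.degree = d i}

/-- `F` is a family of forms of degrees `d i`, and `Φ (F) ≠ 0`. -/
def General {k K : Type} [Field k] [Field K] [Algebra k K] {M q : ℕ} {d : Fin q → ℕ}
    (Φ : MvPolynomial (Index M d) k) (F : Fin q → MvPolynomial (Fin (M + 1)) K) : Prop :=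
  (∀ i, (F i).IsHomogeneous (d i)) ∧ aeval (fun s : Index M d => coeff s.2.1 (F s.1)) Φ ≠ 0

section

variable {K L : Type} [Field K] [Field L] [Algebra K L] {N M q : ℕ}

/-- The pair `(a, x)` of vectors gives a point, over the extension field `L`, of the closed subset
`X` of the product of the projective spaces of dimensions `N` and `M`. -/
def Mem (X : Set (MvPolynomial (Fin (N + 1) ⊕ Fin (M + 1)) K)) (a : Fin (N + 1) → L)
    (x : Fin (M + 1) → L) : Prop :=
  a ≠ 0 ∧ x ≠ 0 ∧ ∀ G ∈ X, aeval (Sum.elim a x) G = 0

/-- The least order at the place `P` of the nonzero members of a family. -/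
noncomputable def minOrd {ι : Type} (P : Place K L) (x : ι → L) : ℤ :=
  ⨅ j : {j // x j ≠ 0}, P.ord (x j)

variable (K) in
/-- The height of the point with the homogeneous coordinates `x`: the degree of the morphism given by
`x`, from the curve with function field `L` to a projective space. -/
noncomputable def height {ι : Type} (x : ι → L) : ℤ := - ∑ᶠ P : Place K L, minOrd P x

variable (K) in
/-- The field generated by the ratios of the coordinates of `x`. -/
noncomputable def ratios (x : Fin (M + 1) → L) : IntermediateField K L :=
  IntermediateField.adjoin K {z | ∃ i j, x j ≠ 0 ∧ z = x i / x j}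

end

/-- `X` lies over `V`. -/
def Over {k K : Type} [Field k] [Field K] [Algebra k K] {N M : ℕ}
    (X : Set (MvPolynomial (Fin (N + 1) ⊕ Fin (M + 1)) K))
    (V : Set (MvPolynomial (Fin (M + 1)) k)) : Prop :=
  ∀ (a : Fin (N + 1) → K) (x : Fin (M + 1) → K), Mem X a x → ∀ H ∈ V, aeval x H = 0

/-- `X` is ramified to order at least `m` over the hypersurfaces `F b = 0`: if a point `(a, x)` of
`X` over a field with a discrete valuation `P` (trivial on `K`) is not in the preimage of `F b = 0`,
its order of contact with the preimage at `P` is `0` or at least `m`. -/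
def Ramified {K : Type} [Field K] {N M q : ℕ}
    (X : Set (MvPolynomial (Fin (N + 1) ⊕ Fin (M + 1)) K)) (d : Fin q → ℕ)
    (F : Fin q → MvPolynomial (Fin (M + 1)) K) (m : ℕ) : Prop :=
  ∀ (L : Type) [Field L] [Algebra K L] (a : Fin (N + 1) → L) (x : Fin (M + 1) → L), Mem X a x →
    ∀ (P : Place K L) (b : Fin q), aeval x (F b) ≠ 0 →
      P.ord (aeval x (F b)) = d b * minOrd P x ∨ d b * minOrd P x + m ≤ P.ord (aeval x (F b))

/-- `X` is quasi-finite (hence finite) over the second factor: the residue field of each point of `X`
is algebraic over that of its image. -/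
def QuasiFinite {K : Type} [Field K] {N M : ℕ}
    (X : Set (MvPolynomial (Fin (N + 1) ⊕ Fin (M + 1)) K)) : Prop :=
  ∀ (L : Type) [Field L] [Algebra K L] (a : Fin (N + 1) → L) (x : Fin (M + 1) → L), Mem X a x →
    ∀ i j, IsAlgebraic (ratios K x) (a i / a j)

section Proof

open Pool.Agent.NH29.GN (Idx Mon fv val)
open Pool.Agent.Run7.h789.RC
open Pool.Agent.Run7.h789.FV (mht_nonneg)

theorem fv_eq {K L : Type} [Field K] [Field L] [Algebra K L] {M q : ℕ} {d : Fin q → ℕ}
    {F : Fin q → MvPolynomial (Fin (M + 1)) K} (hF : ∀ i, (F i).IsHomogeneous (d i))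
    (x : Fin (M + 1) → L) (b : Fin q) :
    fv (K := K) (L := L) (fun s : Idx M d => coeff s.2.1 (F s.1)) x b = aeval x (F b) := by
  classical
  rw [aeval_def]
  exact (Pool.Agent.NH29.GN.Stc.eval₂_form (algebraMap K L) x (hF b)).symm

theorem num2_of {n q : ℕ} {d : Fin q → ℕ} (h : Numeric n d) (C : Finset (Fin q))
    (hC : C ≠ Finset.univ) : Pool.Agent.NH29.GN.Num2 n d C := by
  obtain ⟨h1, h2, h3 | h3⟩ := h
  · exact Pool.Agent.NH29.GN.Fn.num_of_few h2 h1 h3 C hC
  · exact Pool.Agent.NH29.GN.Fn.num_of_sum h1 h3 C hC

end Proof

/-- **Varieties which are finite over `V` and highly ramified over Zariski-general hypersurface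
sections have all four properties.** -/
theorem result {k₀ : Type} [Field k₀] [CharZero k₀] {M n q : ℕ} {d : Fin q → ℕ}
    (hd : Numeric n d) (V : Set (MvPolynomial (Fin (M + 1)) k₀))
    (hV : ∀ H ∈ V, ∃ e, H.IsHomogeneous e) (hdim : DimLE V n) :
    ∃ (Φ : MvPolynomial (Index M d) k₀) (A m : ℕ), Φ ≠ 0 ∧
      ∀ (K : Type) [Field K] [IsAlgClosed K] [Algebra k₀ K]
        (F : Fin q → MvPolynomial (Fin (M + 1)) K), General Φ F →
      ∀ (N : ℕ) (X : Set (MvPolynomial (Fin (N + 1) ⊕ Fin (M + 1)) K)), Over X V →
        Ramified X d F m →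
        -- (1) the degrees of curves
        (∀ (L : Type) [Field L] [Algebra K L] [IsFF K L] (a : Fin (N + 1) → L)
          (x : Fin (M + 1) → L), Mem X a x → height K x ≤ A * max (canDeg K L) 0) ∧
        -- (2) subvarieties which are generically finite over their images
        (∀ (L : Type) [Field L] [Algebra K L] (a : Fin (N + 1) → L) (x : Fin (M + 1) → L) (w : ℕ),
          Mem X a x → Algebra.IsAlgebraic (ratios K x) L → Algebra.trdeg K L = w → 0 < w →
          GeneralType K L w) ∧
        -- (3) finite morphisms
        (QuasiFinite X →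
          (∃ A' : ℕ, ∀ (L : Type) [Field L] [Algebra K L] [IsFF K L] (a : Fin (N + 1) → L)
            (x : Fin (M + 1) → L), Mem X a x →
            height K a + height K x ≤ A' * max (canDeg K L) 0) ∧
          ∀ (L : Type) [Field L] [Algebra K L] (a : Fin (N + 1) → L) (x : Fin (M + 1) → L) (w : ℕ),
            Mem X a x → Algebra.IsAlgebraic ↥(ratios K a ⊔ ratios K x) L →
            Algebra.trdeg K L = w → 0 < w → GeneralType K L w) := by
  classical
  obtain ⟨ℓ, hℓ, hZ⟩ := hdim
  obtain ⟨r, rfl⟩ : ∃ r, q = r + 1 := ⟨q - 1, by have := hd.1; omega⟩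
  have hN := Pool.Agent.NH29.GN.Fn.noZero_of_points (K := AlgebraicClosure k₀) hZ
  have hq : n + 1 ≤ r + 1 := le_trans (Nat.le_succ _) hd.1
  obtain ⟨Φ₁, h1, h2⟩ := Pool.Agent.Run7.h789.RC.good hV hℓ hN hq hd.2.1 (num2_of hd)
  obtain ⟨Φ₂, h3, A, μ, h4⟩ := Pool.Agent.Run7.h789.RC.hgt_main hV hℓ hN hq hd.2.1 (num2_of hd)
  obtain ⟨D, ι, h5⟩ := Pool.Agent.Run7.h789.RC.elim hV d
  refine ⟨Φ₁ * Φ₂, A, max μ (Run7.h34.UG.mm r D), mul_ne_zero h1 h3,
    fun K _ _ _ F hF N X hXV hram => ?_⟩
  have hK : CharZero K := charZero_of_injective_algebraMap (algebraMap k₀ K).injective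
  have hF2 := hF.2
  rw [map_mul, mul_ne_zero_iff] at hF2
  have hgood := h2 K _ hF2.1
  obtain ⟨G, hG1, hG2, hG3⟩ := h5 K (fun s : Index M d => coeff s.2.1 (F s.1))
  have hon : ∀ (L : Type) [Field L] [Algebra K L] (a : Fin (N + 1) → L) (x : Fin (M + 1) → L),
      Mem X a x → Pool.Agent.Run7.h789.RC.OnV (K := K) V x := by
    intro L _ _ a x hax H hH
    have h6 := Pool.Agent.Run7.h789.RC.null' (X := X) (H := map (algebraMap k₀ K) H)
      (fun u v huv => by
        rw [aeval_map_algebraMap]
        exact hXV u v huv H hH) hax
    rw [aeval_def, eval₂_map] at h6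
    exact h6
  have hcur : ∀ (L : Type) [Field L] [Algebra K L] [IsFF K L] (a : Fin (N + 1) → L)
      (x : Fin (M + 1) → L), Mem X a x → height K x ≤ A * max (canDeg K L) 0 := by
    intro L _ _ _ a x hax
    refine h4 K L _ hF2.2 x hax.2.1 (hon L a x hax) fun P b hb => ?_
    rw [fv_eq hF.1] at hb ⊢
    have h6 : Pool.Agent.Run7.h789.FV.mord P x = minOrd P x := rfl
    rw [h6]
    rcases hram L a x hax P b hb with h7 | h7
    · exact Or.inl h7.le
    · right
      have h8 : (μ : ℤ) ≤ (max μ (Run7.h34.UG.mm r D) : ℕ) := by exact_mod_cast le_max_left _ _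
      linarith
  have hsub : ∀ (L : Type) [Field L] [Algebra K L] (a : Fin (N + 1) → L) (x : Fin (M + 1) → L)
      (w : ℕ), Mem X a x → Algebra.IsAlgebraic (ratios K x) L → Algebra.trdeg K L = w → 0 < w →
      GeneralType K L w := by
    intro L _ _ a x w hax halg htr hw
    refine Pool.Agent.Run7.h789.RC.gt_of_lgt (Pool.Agent.Run7.h789.RC.lgt_cover
      (Bd := fun _ => False) hgood hV hd.2.1 hG1 (fun E _ _ _ y hy => hG3 E y hy) hax.2.1
      (hon L a x hax) (fun y hy => hG2 L x hax.2.1 (hon L a x hax) y hy) hw htr halg
      fun P _ hne => ?_)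
    obtain ⟨b, hb, hb1⟩ := hne
    refine ⟨b, hb, ?_⟩
    rw [fv_eq hF.1] at hb hb1 ⊢
    have h6 : Pool.Agent.Run7.h789.FV.mord P x = minOrd P x := rfl
    rw [h6] at hb1 ⊢
    have h8 : (Run7.h34.UG.mm r D : ℤ) ≤ (max μ (Run7.h34.UG.mm r D) : ℕ) := by
      exact_mod_cast le_max_right _ _
    have h9 := (hram L a x hax P b hb).resolve_left hb1
    linarith
  refine ⟨hcur, hsub, fun hqf => ⟨?_, ?_⟩⟩
  · obtain ⟨C, hC⟩ := Pool.Agent.Run7.h789.RC.qf_hgt (X := X) hqf
    refine ⟨(C + 1) * A, fun L _ _ _ a x hax => ?_⟩
    have h6 : height K a ≤ C * height K x := hC L a x hax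
    have h7 := hcur L a x hax
    push_cast
    have h8 : (0 : ℤ) ≤ C := Int.natCast_nonneg _
    nlinarith
  · intro L _ _ a x w hax halg htr hw
    refine hsub L a x w hax ?_ htr hw
    have h6 : ratios K a ⊔ ratios K x ≤
        (algebraicClosure (ratios K x) L).restrictScalars K := by
      refine sup_le ?_ ?_
      · unfold ratios
        rw [IntermediateField.adjoin_le_iff]
        rintro _ ⟨i, j, -, rfl⟩
        exact mem_algebraicClosure_iff.2 (hqf L a x hax i j)
      · intro z hz
        exact mem_algebraicClosure_iff.2
          (isAlgebraic_algebraMap (R := ratios K x) (A := L) (⟨z, hz⟩ : ratios K x))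
    have h7 : Algebra.IsAlgebraic (algebraicClosure (ratios K x) L) L := by
      refine ⟨fun z => ?_⟩
      obtain ⟨p, hp, hpz⟩ := halg.isAlgebraic z
      let f : ↥(ratios K a ⊔ ratios K x) →+* algebraicClosure (ratios K x) L :=
        (IntermediateField.inclusion h6).toRingHom
      refine ⟨p.map f, ?_, ?_⟩
      · rw [Ne, Polynomial.map_eq_zero_iff f.injective]
        exact hp
      · rw [Polynomial.aeval_def, Polynomial.eval₂_map]
        rw [Polynomial.aeval_def] at hpz
        exact hpz
    exact Algebra.IsAlgebraic.trans (ratios K x) (algebraicClosure (ratios K x) L) L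

end Pool.Agent.Results.MP_6f117a_ag.RamifiedOverGeneral
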